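import Pool.Agent.H430.Os.Gen

/-!
The subspace theorem on projective varieties for the points of bounded degree, in the form of a
transport problem, and the optimality of the costs.

Part 1.  `X = {G = 0}` is an integral closed subscheme of dimension `ν` of the projective space over
a number field `K`, and `y e`, `e : Sy`, are finitely many systems of `ν + 1` forms of the degree `D`
without common zeros on `X`.  For a place `w` of the residue field `L` of a point `x` of `X`, above
the place `v` of `K`, let `Λ w k` be the local height of the form `y (e w) k` at `x` and `w`,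
normalised relative to `v` (`pxy`); `e w` is an arbitrary system chosen at `w`, say one which
contains equations of all the divisors near which `x` is at `w`.

Outside a hypersurface section `Z` of `X` which does not depend on the finite set `S` of places, and
for all real numbers `b w`, the sum over `v` in `S` of
`∑ w, n w * b w - [L : K] * ∑ e', E (max over w with e w = e' of (b w - ∑ k, u k * Λ w k)⁺)`
is at most `(1 + ε) D h(x) + C`; here `n w` is the degree of `L_w` over `K_v`, and `E` is the mean over
the simplex of the points `u` with coordinates `u 0, ..., u ν ≥ 0` of sum one.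

If all the `e w` with `w` over `v` are equal, the supremum over `b` of the term of `v` is the cost of
the cheapest way to carry the masses `n w` of the places `w` into the simplex, with the capacity given
by `[L : K]` times the uniform probability, with the price `∑ k, u k * Λ w k` for the mass which is
carried from `w` to `u` (the duality of Kantorovich).  So:

* if all the `Λ w` with `w` over `v` are equal, the term of `v` is `[L : K] / (ν + 1) * ∑ k, Λ w k`,
  which is the constant `ν + 1` of the subspace theorem for `r = 1`;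
* if `ν = 1`, and one conjugate of `x` is near a point at `v`, the term is `1 / (2 [L : K])` times its
  proximity, as in the theorem of Wirsing; if a part `c` of the conjugates is equally near it is `c / 2`
  times the sum of their proximities, as the carriers have to share the simplex.

Part 2.  The costs cannot be lowered, for any `X` of positive dimension, any degree `D` and any
divisors in general position.  Let `f c` be forms of the degree `D`, no `ν + 1` of which have a common
zero on `X`, divided in `ν + 1` classes, with weights `m c` whose sum over each class is `δ > 0`.  There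
are a Zariski dense set of points `x` of `X` of bounded degree over `K` and a finite set `S` such that
at each place `w` of the residue field of `x` over `v` in `S` the point `x` is near `ν` of the divisors,
of different classes, the proximities are inversely proportional to the weights (that to the divisor
`c` is `ρ v / m c`), and the sum of the costs is at least `D h(x) - C`.  The points are the points of
the fibres of the morphism `X → P^ν` given by the products of the `f c ^ m c` over the classes, over
points of `P^ν` whose coordinates are products of powers of the first `ν + 1` primes.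

Part 3.  On the projective line the degree of the points and the number of the conjugates near each
target can be prescribed.  Take the systems `(X 0 - a e * X 1, X 1)` of the targets `a e`.  Let
`∑ m0 i [a i]` and `∑ m1 i [a i]` be divisors of the degree `r` without common points, such that the
`m0 i` and `m1 i` have no common divisor.  For a finite set `S` of places, divided in two non-empty
parts, there are points `x` of exact degree `r` over `K` and of arbitrarily large height, such that at
every place `v` in the first part of `S` exactly `m0 i` conjugates of `x` are near `a i`, for all `i`,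
at every place in the second part exactly `m1 i` conjugates are near `a i`, and the sum of the costs
is at least `h(x) - c`.  The points are the roots of the members `3^t * G0 + 2^s * G1` of the pencil of
the two divisors; that almost all members are irreducible is shown by comparing heights, with the
theorem on clusters of conjugates `MP_71c16a_nt.ConjugateClusters`.
-/

set_option autoImplicit false

namespace Pool.Agent.Results.MP_651af7_nt.OptimalTransport

open MvPolynomial Finset NumberField Height Module
open Pool.Agent.W180.OP (Pl)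
open Pool.Agent.NH28 (nn ab)
open Pool.Agent.H430.Ot (mean pm clu pxy)

section

variable {K : Type} [Field K] {n mG : ℕ} (G : Fin mG → MvPolynomial (Fin n) K)

/-- `X = {G = 0}` is an integral closed subscheme of dimension `ν` of the projective space -/
def IsVar (ν : ℕ) : Prop :=
  (∃ g : Fin mG → ℕ, ∀ k, (G k).IsHomogeneous (g k)) ∧ (Ideal.span (Set.range G)).IsPrime ∧
    Algebra.trdeg K (MvPolynomial (Fin n) K ⧸ Ideal.span (Set.range G)) = (ν + 1 : ℕ)

/-- the forms `y` have no common zero on `X` -/
def NoZero {s : ℕ} (y : Fin s → MvPolynomial (Fin n) K) : Prop :=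
  ∀ (L : Type) [Field L] [Algebra K L] (x : Fin n → L),
    (∀ k, aeval x (G k) = 0) → (∀ k, aeval x (y k) = 0) → x = 0

/-- `x` is a point of `X` with the residue field `L` -/
def IsPt {L : Type} [Field L] [Algebra K L] (x : Fin n → L) : Prop :=
  x ≠ 0 ∧ (∀ k, aeval x (G k) = 0) ∧ IntermediateField.adjoin K {z | ∃ i j, z = x i / x j} = ⊤

end

/-- the cost at the place `v`, for the potentials `b` -/
noncomputable def cost {K L : Type} [Field K] [NumberField K] [Field L] [NumberField L]
    [Algebra K L] {n ν : ℕ} {Sy : Type} [Fintype Sy] (D : ℕ)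
    (y : Sy → Fin (ν + 1) → MvPolynomial (Fin n) K) (x : Fin n → L) (e : Pl L → Sy)
    (b : Pl L → ℝ) (v : Pl K) : ℝ :=
  ∑ w ∈ ab L v, nn v w * b w - finrank K L * ∑ e', mean ν fun u =>
    pm (clu (ab L v) e e') fun w => b w - ∑ k, u k * pxy v w D (y (e w) k) x

/-- the inequality -/
def Upper (K : Type) [Field K] [NumberField K] : Prop :=
  ∀ (n mG ν r D : ℕ), 1 ≤ r → 1 ≤ D → ∀ G : Fin mG → MvPolynomial (Fin n) K, IsVar G ν →
    ∀ (Sy : Type) [Fintype Sy] [Nonempty Sy] (y : Sy → Fin (ν + 1) → MvPolynomial (Fin n) K),
    (∀ e k, (y e k).IsHomogeneous D) → (∀ e, NoZero G (y e)) → ∀ ε : ℝ, 0 < ε →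
    ∃ Z : MvPolynomial (Fin n) K, Z ∉ Ideal.span (Set.range G) ∧ (∃ t, Z.IsHomogeneous t) ∧
      ∀ S : Finset (Pl K), ∃ C : ℝ, ∀ (L : Type) [Field L] [NumberField L] [Algebra K L],
        finrank K L ≤ r → ∀ x : Fin n → L, IsPt G x → aeval x Z ≠ 0 →
        ∀ e : Pl L → Sy, (∀ w k, aeval x (y (e w) k) ≠ 0) → ∀ b : Pl L → ℝ,
        ∑ v ∈ S, cost D y x e b v ≤ (1 + ε) * D * logHeight x + C

/-- the optimality for all projective varieties -/
def Optimal (K : Type) [Field K] [NumberField K] : Prop :=
  ∀ (n mG ν D q δ : ℕ), 1 ≤ ν → 1 ≤ D → 1 ≤ δ → ∀ G : Fin mG → MvPolynomial (Fin n) K,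
    IsVar G ν → ∀ f : Fin q → MvPolynomial (Fin n) K, (∀ c, (f c).IsHomogeneous D) →
    (∀ s : Fin (ν + 1) ↪ Fin q, NoZero G fun k => f (s k)) →
    ∀ (cl : Fin q → Fin (ν + 1)) (m : Fin q → ℕ),
    (∀ k, ∑ c ∈ univ.filter (fun c => cl c = k), m c = δ) →
    ∃ (r0 : ℕ) (S : Finset (Pl K)), ∀ Z : MvPolynomial (Fin n) K,
      Z ∉ Ideal.span (Set.range G) → (∃ t, Z.IsHomogeneous t) → ∃ C : ℝ, ∀ B : ℝ,
      ∃ (L : Type) (_ : Field L) (_ : NumberField L) (_ : Algebra K L) (x : Fin n → L),
        finrank K L ≤ r0 ∧ IsPt G x ∧ aeval x Z ≠ 0 ∧ B < logHeight x ∧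
        ∃ (e : Pl L → Fin (ν + 1) ↪ Fin q) (b : Pl L → ℝ) (ρ : Pl K → ℝ),
          (∀ w k, aeval x (f (e w k)) ≠ 0) ∧
          (∀ v ∈ S, B < ρ v ∧ ∀ w ∈ ab L v, Function.Bijective (fun k => cl (e w k)) ∧
            ∀ k, k ≠ 0 → |m (e w k) * pxy v w D (f (e w k)) x - ρ v| ≤ C) ∧
          D * logHeight x - C ≤ ∑ v ∈ S, cost D (fun s k => f (s k)) x e b v

/-- the optimality for the projective line, with the degree and the distribution prescribed -/
def OptimalLine (K : Type) [Field K] [NumberField K] : Prop :=
  ∀ (q r : ℕ) (a : Fin q → K), Function.Injective a → ∀ m0 m1 : Fin q → ℕ, 1 ≤ r →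
    ∑ i, m0 i = r → ∑ i, m1 i = r → (∀ i, m0 i = 0 ∨ m1 i = 0) →
    (∀ d, (∀ i, d ∣ m0 i ∧ d ∣ m1 i) → d = 1) →
    ∃ (S : Finset (Pl K)) (P : Pl K → Fin q → ℕ) (c : ℝ), (∀ v ∈ S, P v = m0 ∨ P v = m1) ∧
      (∃ v ∈ S, P v = m0) ∧ (∃ v ∈ S, P v = m1) ∧ ∀ B : ℝ,
        ∃ (L : Type) (_ : Field L) (_ : NumberField L) (_ : Algebra K L) (x : L),
          IntermediateField.adjoin K {x} = ⊤ ∧ finrank K L = r ∧ B < logHeight ![x, 1] ∧
          ∃ (e : Pl L → Fin q) (b : Pl L → ℝ), (∀ w, x ≠ algebraMap K L (a (e w))) ∧
            (∀ v ∈ S, ∀ i, ∑ w ∈ clu (ab L v) e i, nn v w = P v i) ∧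
            logHeight ![x, 1] - c ≤ ∑ v ∈ S, cost 1
              (fun i => (![X 0 - C (a i) * X 1, X 1] : Fin 2 → MvPolynomial (Fin 2) K))
              ![x, 1] e b v

theorem result {K : Type} [Field K] [NumberField K] : Upper K ∧ Optimal K ∧ OptimalLine K := by
  refine ⟨?_, ?_, ?_⟩
  · rintro n mG ν r D hr hD G ⟨⟨g, hG⟩, hX, hdim⟩ Sy _ _ y hy hyX ε hε
    obtain ⟨Z, hZ, hZt, h⟩ := Pool.Agent.H430.Ot.main_ot hr hD G g hG hX hdim y hy hyX ε hε
    refine ⟨Z, hZ, hZt, fun S => ?_⟩
    obtain ⟨C, hC⟩ := h S
    exact ⟨C, fun L _ _ _ hL x hx hZx e he b => hC L hL x hx.1 hx.2.1 hx.2.2 hZx e he b⟩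
  · rintro n mG ν D q δ hν hD hδ G ⟨⟨g, hG⟩, hX, hdim⟩ f hf hgp cl m hm
    obtain ⟨r0, S, h⟩ := Pool.Agent.H430.Os.sharp_gen hν hD hδ G g hG hX hdim f hf
      (fun s => hgp s) cl m hm
    refine ⟨r0, S, fun Z hZ hZt => ?_⟩
    obtain ⟨t, ht⟩ := hZt
    obtain ⟨C, hC⟩ := h Z hZ t ht
    refine ⟨C, fun B => ?_⟩
    obtain ⟨L, i1, i2, i3, x, h1, h2, h3, h4, h5, h6, e, b, ρ, h7, h8, h9⟩ := hC B
    exact ⟨L, i1, i2, i3, x, h1, ⟨h2, h3, h4⟩, h5, h6, e, b, ρ, h7, h8, h9⟩
  · intro q r a ha m0 m1 hr h0 h1 hdj hg
    obtain ⟨S, P, c, h2, h3, h4, h⟩ := Pool.Agent.H430.Os.sharp_ot a ha m0 m1 hr h0 h1 hdj hg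
    refine ⟨S, P, c, h2, h3, h4, fun B => ?_⟩
    obtain ⟨L, i1, i2, i3, x, h5, h6, h7, e, b, h8, h9, h10⟩ := h B
    refine ⟨L, i1, i2, i3, x, h5, h6, h7, e, b, fun w hw => ?_, h9, h10⟩
    have := h8 w 0
    apply this
    show aeval ![x, 1] (X 0 - C (a (e w)) * X 1 : MvPolynomial (Fin 2) K) = 0
    rw [map_sub, map_mul, aeval_X, aeval_X, aeval_C, hw]
    show algebraMap K L (a (e w)) - algebraMap K L (a (e w)) * 1 = 0
    ring

end Pool.Agent.Results.MP_651af7_nt.OptimalTransport
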