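import Mathlib
import Pool.Agent.H933.QP.Fin

/-!
# Vojta's inequality for all points of degree at most two on the line, up to the conductor

Let `D` be a reduced effective divisor of degree `q ≥ 1` on the projective line over `ℚ` (its points
need not be rational), given by a squarefree `G ∈ ℤ[T]` of degree `q` or `q - 1` as
`D = div₀(G) + (q - deg G) ∞`, and let `S` be a finite set of primes. The theorem is Vojta's
inequality (`r = 2`, `X = P¹`, no exceptional set)
`∑_{v ∈ S ∪ {∞}} λ_{D,v}(x) - 2 h(x) - d(x) ≤ ε h(x) + log c_S(x) + C` for **all** algebraic `x` of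
degree at most two outside `D`, where `d(x)` is the logarithmic discriminant of the field `ℚ(x)` and
`c_S(x)` is the prime-to-`S` part of the conductor `c(x)` of the order of `x`
(`disc f = disc ℚ(x) * c(x) ^ 2` for the minimal polynomial `f` over `ℤ`). Hence Vojta's inequality
holds as conjectured for all `x` of degree at most two whose conductor is composed of primes of `S`
(for instance if `disc f` is squarefree).

Proof. Quadratic polynomials are rational points of the plane; `D` gives tangent lines of the conic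
`disc = 0`. Off finitely many curves: the subspace theorem for the Veronese embeddings of the plane,
with bases adapted to two tangent lines and the conic. On curves: the library's theorem on points of
rational curves (projects `NH28.QP`, `NH95.QP`) together with the subspace theorem
(`Pool.Agent.H933.QP.t_SUB`).
-/

set_option autoImplicit false

namespace Pool.Agent.Results.MP_651af7_nt.QuadraticConductor

open Polynomial IntermediateField

/-- The absolute logarithmic height `(log M(f)) / deg f` of the roots of an irreducible primitive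
`f` (`M` is the Mahler measure). -/
noncomputable def height (f : ℤ[X]) : ℝ :=
  Real.log (f.map (Int.castRingHom ℂ)).mahlerMeasure / f.natDegree

/-- `λ_{D,∞}(x)` for the divisor `D` of degree `q` given by `G`: the average over the conjugates
`z` of `x`, i.e. the roots of `f`, of `log (max(1,|z|)^q / |G(z)|)`. -/
noncomputable def lambdaInf (G : ℤ[X]) (q : ℕ) (f : ℤ[X]) : ℝ :=
  ((f.map (Int.castRingHom ℂ)).roots.map fun z =>
    Real.log (max 1 ‖z‖ ^ q / ‖(G.map (Int.castRingHom ℂ)).eval z‖)).sum / f.natDegree

/-- `λ_{D,p}(x)`, the average over the conjugates `z` of `x` over `ℚ_p` of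
`log (max(1,|z|_p)^q / |G(z)|_p)`; for primitive `f` the sum over the conjugates is
`-log |Res(f,G)|_p`, with `Res` the resultant for the degrees `deg f` and `q`. -/
noncomputable def lambdaP (p : ℕ) (G : ℤ[X]) (q : ℕ) (f : ℤ[X]) : ℝ :=
  (padicValInt p (resultant f G f.natDegree q) : ℝ) * Real.log p / f.natDegree

open Classical in
/-- The logarithmic discriminant `d(x)` of the field `ℚ(x)`. -/
noncomputable def logDisc (x : ℂ) : ℝ :=
  if _ : NumberField ℚ⟮x⟯ then
    Real.log |(NumberField.discr ℚ⟮x⟯ : ℝ)| / Module.finrank ℚ ℚ⟮x⟯ else 0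

/-- The logarithm of the prime-to-`S` part of the natural number `c`. -/
noncomputable def logOut (S : Finset ℕ) (c : ℕ) : ℝ :=
  Real.log c - ∑ p ∈ S, (padicValNat p c : ℝ) * Real.log p

/-- `c` is the conductor of the quadratic or linear polynomial `f` with root `x`:
`disc f = disc ℚ(x) * c ^ 2`, `c ≥ 1`. -/
def IsCond (x : ℂ) (f : ℤ[X]) (c : ℕ) : Prop :=
  0 < c ∧ ∃ _ : NumberField ℚ⟮x⟯, Polynomial.discr f = NumberField.discr ℚ⟮x⟯ * (c : ℤ) ^ 2

/-- **Vojta's inequality up to the conductor.** Let `D` be the reduced effective divisor of degree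
`q ≥ 1` on the projective line over `ℚ` given by `G`, `S` a finite set of primes and `ε > 0`. There
is `C` such that all algebraic numbers `x` of degree at most two outside the support of `D`, with
minimal polynomial `f` over `ℤ` and conductor `c`, satisfy
`∑_{v ∈ S ∪ {∞}} λ_{D,v}(x) + h_K(x) - d(x) ≤ ε h(x) + log c_S + C`, with `h_K = -2 h` and `c_S` the
prime-to-`S` part of `c`. -/
theorem result (q : ℕ) (hq : 1 ≤ q) (G : ℤ[X])
    (hG : Squarefree (G.map (Int.castRingHom ℚ))) (hGq : G.natDegree ≤ q)
    (hqG : q ≤ G.natDegree + 1) (S : Finset ℕ) (hS : ∀ p ∈ S, p.Prime) (ε : ℝ) (hε : 0 < ε) :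
    ∃ C : ℝ, ∀ (x : ℂ) (f : ℤ[X]), Irreducible f → 1 ≤ f.natDegree → f.natDegree ≤ 2 →
      aeval x f = 0 → aeval x G ≠ 0 → ∃ c : ℕ, IsCond x f c ∧
        lambdaInf G q f + ∑ p ∈ S, lambdaP p G q f + (-2) * height f - logDisc x ≤
          ε * height f + logOut S c + C := by
  obtain ⟨C1, hC1⟩ := Pool.Agent.H933.QP.rat_main q hq G hG hGq hqG S hS ε hε
  obtain ⟨C2, hC2⟩ := Pool.Agent.H933.QP.quad_main q G hG hGq hqG S hS ε hε
  refine ⟨max C1 (C2 / 2), fun x f hf hd1 hd2 hx hxG => ?_⟩
  have hf0 : f ≠ 0 := hf.ne_zero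
  have hR := Pool.Agent.H933.QP.resultant_ne f G q hGq hf hd1 x hx hxG
  have hsum := Pool.Agent.H990R4.VJ.sum_log_eq f G q hGq hf0 hR
  have hle1 := le_max_left C1 (C2 / 2)
  have hle2 := le_max_right C1 (C2 / 2)
  obtain h1 | h2 : f.natDegree = 1 ∨ f.natDegree = 2 := by omega
  · -- rational points
    have hbot := Pool.Agent.H933.QP.field_one h1 hx
    have nf := Pool.Agent.H933.QP.nf_bot x hbot
    have hdis := Pool.Agent.H933.QP.discr_bot x hbot nf
    refine ⟨1, ⟨one_pos, nf, ?_⟩, ?_⟩
    · rw [hdis, discr_of_degree_eq_one]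
      · norm_num
      · rw [degree_eq_natDegree hf0, h1]
        rfl
    · have h3 := hC1 f hf h1 (by rwa [h1] at hR)
      have h4 : logDisc x = 0 := by
        unfold logDisc
        rw [dif_pos nf, hdis]
        simp
      have h5 : logOut S 1 = 0 := by
        unfold logOut
        simp
      rw [h4, h5]
      unfold lambdaInf lambdaP height
      rw [hsum, h1]
      simp only [Nat.cast_one, div_one]
      unfold Pool.Agent.H990R4.VJ.mm at h3 ⊢
      linarith
  · -- quadratic points
    obtain ⟨nf, hfin⟩ := Pool.Agent.NH28.QP.field_COR hf h2 hx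
    obtain ⟨c, hc0, hc⟩ := Pool.Agent.H933.QP.exists_cond x f hf h2 hx nf hfin
    refine ⟨c, ⟨hc0, nf, hc⟩, ?_⟩
    have h3 := hC2 f hf h2 (by rwa [h2] at hR)
    have hdne : NumberField.discr ℚ⟮x⟯ ≠ 0 := NumberField.discr_ne_zero _
    have hcR : (0 : ℝ) < c := by exact_mod_cast hc0
    have hdR : (0 : ℝ) < |(NumberField.discr ℚ⟮x⟯ : ℝ)| := abs_pos.2 (by exact_mod_cast hdne)
    have h4 : logDisc x = Real.log |(NumberField.discr ℚ⟮x⟯ : ℝ)| / 2 := by
      unfold logDisc
      rw [dif_pos nf, hfin]
      norm_num
    have h5 : Real.log |((Polynomial.discr f : ℤ) : ℝ)| =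
        Real.log |(NumberField.discr ℚ⟮x⟯ : ℝ)| + 2 * Real.log c := by
      rw [hc]
      push_cast
      rw [abs_mul, Real.log_mul hdR.ne' (by positivity), abs_of_pos (by positivity : (0:ℝ) < c ^ 2),
        Real.log_pow]
      push_cast
      ring
    have h6 : 2 * ∑ p ∈ S, (padicValNat p c : ℝ) * Real.log p ≤
        ∑ p ∈ S, (padicValInt p (Polynomial.discr f) : ℝ) * Real.log p := by
      rw [Finset.mul_sum]
      refine Finset.sum_le_sum fun p hp => ?_
      have hF : Fact p.Prime := ⟨hS p hp⟩
      have h7 : 2 * padicValNat p c ≤ padicValInt p (Polynomial.discr f) := by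
        rw [hc, padicValInt.mul hdne (pow_ne_zero 2 (by exact_mod_cast hc0.ne'))]
        have h8 : padicValInt p ((c : ℤ) ^ 2) = 2 * padicValNat p c := by
          rw [← Nat.cast_pow, padicValInt.of_nat, padicValNat.pow]
        omega
      have h8 : (2 : ℝ) * (padicValNat p c : ℝ) ≤ (padicValInt p (Polynomial.discr f) : ℝ) := by
        exact_mod_cast h7
      have h9 : 0 ≤ Real.log p := Real.log_nonneg (by exact_mod_cast (hS p hp).one_lt.le)
      nlinarith
    rw [h4]
    unfold lambdaInf lambdaP height logOut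
    rw [hsum, h2, ← Finset.sum_div]
    unfold Pool.Agent.H990R4.VJ.mm at h3 ⊢
    push_cast
    linarith

end Pool.Agent.Results.MP_651af7_nt.QuadraticConductor
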