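import Pool.Agent.H426.Cyc.Gen

set_option autoImplicit false

/-!
# The sharp Schmidt-Nochka theorem for hypersurfaces, for the points of bounded degree

`X = {G = 0}` is an irreducible projective variety of dimension `n` over a number field `K`, and
`D i = X ∩ {F i = 0}`, `i < q`, are hypersurface sections of degrees `d i` in `N`-subgeneral
position: no `N + 1` of them have a common point. Let `n ≤ μ ≤ N δ`. Then there is a closed subset
`B` of `X ^ δ` of dimension less than `μ`, which does not depend on `S`, such that
`∑ i, m_{S, D i}(x) / d i ≤ (2 N δ - μ + 1 + ε) h(x) + C` for all points `x` of degree `δ` whose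
tuple of conjugates is not on `B`.

`μ = n`: `B` projects into a proper closed subset `Z` of `X`, and the constant is `2 N δ - n + 1` for
the points outside `Z`. For rational points (`δ = 1`) it is the constant `2 N - n + 1` of Nochka's
theorem (the case of hyperplanes, where it cannot be lowered). For `X = ℙ^1` it is Wirsing's
constant `2 δ`. `μ = n δ`: `B` is a proper closed subset of `X ^ δ`, and for `N = n` the constant is
`n δ + 1`. For surfaces it is `2 δ + 1`, the value which Vojta's conjecture for `ℙ^2` gives with
Silverman's bound of the discriminant.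

Method. (1) The vector `y` of the norms of the `F i (x)` is a rational point of a projective scheme
`Y` on which no `N δ + 1` coordinate hyperplanes meet. (2) For an irreducible `V` in `Y` of
dimension `ν` and every family of bases, one for each place of `S`, of the forms of degree `M` on
`V` which consist of products of variables and forms, the subspace theorem bounds the sum of the
local heights, weighted by the exponents of the variables. (3) The new step, which replaces the
Nochka weights: for vectors `a_w ≥ 0` with `∑ w, a_w j ≤ 1` for the variables `j` outside the ideal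
of `V`, and weights of the best bases of total at most `x M H(M)`, `0 ≤ x ≤ 1`, the sum over `w` of
the `K + 1` largest values of `a_w` is at most `(ν + 1) x + 2 (K - ν) + ε`, where `K = N δ - b` and
`b` is the number of the variables in the ideal. It is proved by Noetherian induction: after a
rescaling of the vectors (a linear programming step) one sum is equal to `1`; the bases are filtered
by the powers of this variable, the asymptotics of the Hilbert functions show that one component of
its section of dimension `ν - 1` inherits the inequality with the right parameter `x`, and the forms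
of high degree have a weight at least that of the `K + 1` largest values. (4) Noetherian induction
over `V`: the points whose norms are in a `V` of dimension less than `μ` are left. The members of
such a tuple of conjugates are algebraic over the vector `y`, by valuations, so these tuples are in
a closed subset of dimension less than `μ`.
-/

namespace Pool.Agent.Results.MP_651af7_nt.SchmidtNochka

open NumberField IsDedekindDomain

/-- The point with homogeneous coordinates `x` lies on the projective scheme `{G = 0}`. -/
def On {K L : Type} [Field K] [Field L] [Algebra K L] {m s : ℕ}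
    (G : Fin m → MvPolynomial (Fin s) K) (x : Fin s → L) : Prop :=
  ∀ k, MvPolynomial.aeval x (G k) = 0

/-- `{G = 0}` is an irreducible projective variety over `K`, defined by a prime ideal generated by
the forms `G k`, of dimension `n`: its homogeneous coordinate ring has transcendence degree
`n + 1`. -/
def IsVariety {K : Type} [Field K] {m s : ℕ} (G : Fin m → MvPolynomial (Fin s) K) (n : ℕ) : Prop :=
  (∀ k, ∃ g, (G k).IsHomogeneous g) ∧ (Ideal.span (Set.range G)).IsPrime ∧
    Algebra.trdeg K (MvPolynomial (Fin s) K ⧸ Ideal.span (Set.range G)) = n + 1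

/-- The polynomial in `δ` groups of `s` variables is homogeneous in each group. -/
def IsMultihomogeneous {K : Type} [Field K] {δ s : ℕ} (p : MvPolynomial (Fin δ × Fin s) K) :
    Prop :=
  ∃ d : Fin δ → ℕ, ∀ β ∈ p.support, ∀ i, ∑ j, β (i, j) = d i

/-- The closed subset of `X ^ δ`, `X = {G = 0}`, defined by the multihomogeneous polynomials in `B`
has dimension less than `μ`: for each of its points `x`, with values in any field, the residue field
has transcendence degree less than `μ`. It is generated by the coordinates of representatives which
have a coordinate `1`. -/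
def DimLT {K : Type} [Field K] {m s δ : ℕ} (G : Fin m → MvPolynomial (Fin s) K)
    (B : Set (MvPolynomial (Fin δ × Fin s) K)) (μ : ℕ) : Prop :=
  ∀ (E : Type) [Field E] [Algebra K E] (x : Fin δ → Fin s → E), (∀ i, On G (x i)) →
    (∀ i, ∃ j, x i j = 1) →
    (∀ p ∈ B, MvPolynomial.aeval (fun ij : Fin δ × Fin s => x ij.1 ij.2) p = 0) →
    Algebra.trdeg K (Algebra.adjoin K (Set.range fun ij : Fin δ × Fin s => x ij.1 ij.2)) < μ

/-- The conjugates over `K` of the point `x` of `X(L)`, `[L : K] = δ`, form a point of the closed
subset of `X ^ δ` defined by `B`, in every order. -/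
def ConjugatesOn {K L : Type} [Field K] [Field L] [Algebra K L] {δ s : ℕ}
    (B : Set (MvPolynomial (Fin δ × Fin s) K)) (x : Fin s → L) : Prop :=
  ∀ (σ : Fin δ ≃ (L →ₐ[K] AlgebraicClosure K)), ∀ p ∈ B,
    MvPolynomial.aeval (fun ij : Fin δ × Fin s => σ ij.1 (x ij.2)) p = 0

/-- The places of a number field: the archimedean places and the primes. -/
abbrev Place (L : Type) [Field L] [NumberField L] : Type :=
  InfinitePlace L ⊕ HeightOneSpectrum (𝓞 L)

/-- The place is archimedean or lies over a prime in `S`. -/
def Above {K L : Type} [Field K] [NumberField K] [Field L] [NumberField L] [Algebra K L]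
    (S : Finset (HeightOneSpectrum (𝓞 K))) : Place L → Prop
  | Sum.inl _ => True
  | Sum.inr w => ∃ v ∈ S, w.asIdeal.LiesOver v.asIdeal

/-- The absolute value of a place. At a prime it is the normalised one, with the value
`(N v) ^ (-ord_v x)` at `x ≠ 0`. -/
noncomputable def absv {L : Type} [Field L] [NumberField L] : Place L → L → ℝ
  | Sum.inl w => fun x => w x
  | Sum.inr v => fun x => FinitePlace.mk v x

/-- The exponent of the absolute value of a place in the product formula: `1` at real places and at
primes, `2` at complex places. -/
noncomputable def weight {L : Type} [Field L] [NumberField L] : Place L → ℝ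
  | Sum.inl w => w.mult
  | Sum.inr _ => 1

/-- The local height of the hypersurface `F = 0` of degree `d` at the point with homogeneous
coordinates `x`. -/
noncomputable def weil {K L : Type} [Field K] [Field L] [NumberField L] [Algebra K L] {s : ℕ}
    (p : Place L) (d : ℕ) (F : MvPolynomial (Fin s) K) (x : Fin s → L) : ℝ :=
  Real.log ((⨆ j, absv p (x j)) ^ d / absv p (MvPolynomial.aeval x F))

/-- The sum over `i` of `1 / d i` times the proximity function of `F i = 0` at `x`, in absolute
normalisation, for the finite set `T` of places of `L`. -/
noncomputable def proximity {K L : Type} [Field K] [Field L] [NumberField L] [Algebra K L]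
    {s q : ℕ} (T : Finset (Place L)) (F : Fin q → MvPolynomial (Fin s) K) (d : Fin q → ℕ)
    (x : Fin s → L) : ℝ :=
  (∑ p ∈ T, weight p * ∑ i, weil p (d i) (F i) x / d i) / Module.finrank ℚ L

/-- The absolute logarithmic height. -/
noncomputable def height {L : Type} [Field L] [NumberField L] {s : ℕ} (x : Fin s → L) : ℝ :=
  Height.logHeight x / Module.finrank ℚ L

/-- Let `X = {G = 0}` be an irreducible projective variety of dimension `n` over a number field `K`,
and let `D i = X ∩ {F i = 0}`, `i < q`, be hypersurface sections of degrees `d i ≥ 1`, no `N + 1` of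
which have a common point. Let `δ ≥ 1` and `n ≤ μ ≤ N δ`. For every `ε > 0` there is a closed subset
`B` of `X ^ δ` of dimension less than `μ` such that for every finite set `S` of primes of `K` there
is `C` such that for every number field `L` of degree `δ` over `K`, every point `x` of `X` with
coordinates in `L`, outside all `D i`, whose conjugates do not form a point of `B`, and every finite
set `T` of places of `L` which are archimedean or lie over `S`,
`∑ i, m_{T, D i}(x) / d i ≤ (2 N δ - μ + 1 + ε) h(x) + C`. -/
theorem result (K : Type) [Field K] [NumberField K] (m s n q N δ μ : ℕ)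
    (G : Fin m → MvPolynomial (Fin s) K) (hX : IsVariety G n) (hδ : 1 ≤ δ) (_hμ : n ≤ μ)
    (hμN : μ ≤ N * δ) (F : Fin q → MvPolynomial (Fin s) K) (d : Fin q → ℕ) (hd : ∀ i, 1 ≤ d i)
    (hF : ∀ i, (F i).IsHomogeneous (d i))
    (hsub : ∀ (e : Fin (N + 1) ↪ Fin q) (E : Type) [Field E] [Algebra K E] (x : Fin s → E),
      On G x → (∀ k, MvPolynomial.aeval x (F (e k)) = 0) → x = 0)
    (ε : ℝ) (hε : 0 < ε) :
    ∃ B : Set (MvPolynomial (Fin δ × Fin s) K), (∀ p ∈ B, IsMultihomogeneous p) ∧ DimLT G B μ ∧
      ∀ S : Finset (HeightOneSpectrum (𝓞 K)), ∃ C : ℝ,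
        ∀ (L : Type) [Field L] [NumberField L] [Algebra K L], Module.finrank K L = δ →
          ∀ x : Fin s → L, x ≠ 0 → On G x → ¬ ConjugatesOn B x →
            (∀ i, MvPolynomial.aeval x (F i) ≠ 0) →
            ∀ T : Finset (Place L), (∀ p ∈ T, Above S p) →
              proximity T F d x ≤ (2 * N * δ - μ + 1 + ε) * height x + C := by
  classical
  have hweil : ∀ (L : Type) [Field L] [NumberField L] [Algebra K L] (p : Place L) (e : ℕ)
      (H : MvPolynomial (Fin s) K) (x : Fin s → L), weil p e H x =
      Pool.Agent.W180.OP.lam (Pool.Agent.W180.OP.av p) e (Pool.Agent.W180.OP.bc L H) x := by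
    intro L _ _ _ p e H x
    unfold weil Pool.Agent.W180.OP.lam
    rw [Pool.Agent.W180.OP.eval_bc]
    cases p <;> rfl
  have hw : ∀ (L : Type) [Field L] [NumberField L] (p : Place L),
      weight p = Pool.Agent.W180.OP.wt p := by
    intro L _ _ p
    cases p <;> rfl
  have hprox : ∀ (L : Type) [Field L] [NumberField L] [Algebra K L] (T : Finset (Place L))
      (x : Fin s → L), proximity T F d x =
      (∑ p ∈ T, Pool.Agent.W180.OP.wt p * ∑ i,
      Pool.Agent.W180.OP.lam (Pool.Agent.W180.OP.av p) (d i)
        (Pool.Agent.W180.OP.bc L (F i)) x / d i) / Module.finrank ℚ L := by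
    intro L _ _ _ T x
    unfold proximity
    congr 1
    refine Finset.sum_congr rfl fun p _ => ?_
    rw [hw]
    congr 1
    exact Finset.sum_congr rfl fun i _ => by rw [hweil]
  obtain ⟨hG, -, -⟩ := hX
  choose g hG using hG
  obtain ⟨B, hBm, hBs, hB⟩ := Pool.Agent.H426.Cyc.cyc_gen (δ := δ) (N := N) (μ := μ) hδ G g hG
    hμN F d hd hF (fun e E _ _ x h1 h2 => hsub e E x h1 h2) hε
  refine ⟨B, ?_, ?_, fun S => ?_⟩
  · intro p hp
    obtain ⟨c, hc⟩ := hBm p hp
    refine ⟨c, fun β hβ i => ?_⟩
    have h1 := hc (MvPolynomial.mem_support_iff.1 hβ)
    have h2 := congrFun h1 i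
    have h3 : (β.sum fun (si : Fin δ × Fin s) (a : ℕ) => a • (Pi.single si.1 1 : Fin δ → ℕ)) =
        ∑ si, β si • (Pi.single si.1 1 : Fin δ → ℕ) :=
      Finsupp.sum_fintype _ _ fun si => zero_smul ℕ _
    rw [Finsupp.weight_apply, h3, Finset.sum_apply, Fintype.sum_prod_type] at h2
    rw [← h2, Finset.sum_eq_single i]
    · refine Finset.sum_congr rfl fun j _ => ?_
      simp
    · intro k _ hk
      refine Finset.sum_eq_zero fun j _ => ?_
      simp [Pi.single_eq_of_ne (Ne.symm hk)]
    · intro h
      exact absurd (Finset.mem_univ i) h
  · intro E _ _ x h1 h2 h3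
    exact hBs E x h1 h2 h3
  set S' : Finset (Pool.Agent.W180.OP.Pl K) := Finset.univ.image Sum.inl ∪ S.image Sum.inr with hS'
  obtain ⟨C, hC0, hC⟩ := hB S'
  refine ⟨C, ?_⟩
  intro L _ _ _ hrL x hx hGx hBx hFx T hT
  have hN : (1 : ℝ) ≤ Module.finrank ℚ L := by
    exact_mod_cast (Module.finrank_pos : 0 < Module.finrank ℚ L)
  have hN0 : (0 : ℝ) < Module.finrank ℚ L := by linarith
  have h1 := hC L hrL x hx hGx hFx (by
    unfold ConjugatesOn at hBx
    push Not at hBx
    exact hBx) T (by
    intro w hw
    have h2 := hT w hw
    cases w with
    | inl w =>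
      refine ⟨Sum.inl (w.comap (algebraMap K L)), ?_, rfl⟩
      exact Finset.mem_union_left _ (Finset.mem_image_of_mem _ (Finset.mem_univ _))
    | inr w =>
      obtain ⟨v, hv, hvw⟩ := h2
      exact ⟨Sum.inr v, Finset.mem_union_right _ (Finset.mem_image_of_mem _ hv), hvw⟩)
  rw [hprox, div_le_iff₀ hN0]
  have e1 : ((2 * N * δ - μ + 1 + ε) * height x + C) * Module.finrank ℚ L =
      (2 * (N * δ) - μ + 1 + ε) * Height.logHeight x +
        C * Module.finrank ℚ L := by
    unfold height
    field_simp
  rw [e1]
  have h2 : C ≤ C * Module.finrank ℚ L := le_mul_of_one_le_right hC0 hN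
  linarith

end Pool.Agent.Results.MP_651af7_nt.SchmidtNochka
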