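import Pool.Agent.H430.Gw.Sh5

/-!
The theorem of Wirsing for the closed points of degree `r` of the projective line, by the
codimension of the linear systems that contain the point.

The closed points of degree `r` of the projective line over a number field `K`, other than the
point at infinity, are the irreducible monic polynomials of degree `r` over `K`; we see them in the
projective space of the vectors `(c_0, ..., c_r)` of the coefficients.  `D` is the sum of the
distinct points `a i` of `K`.

(1) There is a finite set `𝒲` of linear subspaces of `K ^ (r + 1)` (of linear systems of degree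
`r`), which depends only on `K`, `r` and `D`, with the following property.  For every finite set
`S` of places and every `ε > 0` there is a constant `C` such that for all `κ` and all `x` of degree
`r` over `K`, `L = K(x)`, whose minimal polynomial is in no member of `𝒲` of codimension larger
than `κ`, the proximity of `x` to `D` at `S` is at most `(r + 1 + κ + ε) h(x) + C`.
For `κ = 0` the constant is the one `r + 1` of the theorem of Schmidt in `ℙ ^ r`, and for
`κ = r - 1` it is the one `2 r` of the theorem of Wirsing.  The inequality also holds with the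
clustered proximity `clus`.

(2) All of these constants are optimal for `K = ℚ`.
-/

set_option autoImplicit false

namespace Pool.Agent.Results.MP_651af7_nt.WirsingByCodimension

open Finset NumberField Height Module Polynomial
open Pool.Agent.W180.OP (Pl)
open Pool.Agent.NH28 (Ov nn ab)
open Pool.Agent.H430.Cl (prx)

section

variable {K L : Type} [Field K] [NumberField K] [Field L] [NumberField L] [Algebra K L]

/-- the proximity of `x` to the point `a` at the place `v` of `K`: the sum of the local heights
over the places `w` of `L` above `v` -/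
noncomputable def prox (v : Pl K) (a : K) (x : L) : ℝ :=
  ∑ w ∈ ab L v, nn v w * prx v w a x

/-- the clustered proximity: in terms of the conjugates `y` of `x` it is one half of
`∑ y, λ(y) + ∑ y, ∑ z, min (λ(y), λ(z))` -/
noncomputable def clus (v : Pl K) (a : K) (x : L) : ℝ :=
  (prox v a x + ∑ w ∈ ab L v, ∑ w' ∈ ab L v,
    nn v w * nn v w' * min (prx v w a x) (prx v w' a x)) / 2

variable (K) in
/-- the vector of the coefficients of the minimal polynomial -/
noncomputable def vec (r : ℕ) (x : L) : Fin (r + 1) → K := fun j => (minpoly K x).coeff j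

end

theorem result :
    (∀ (K : Type) [Field K] [NumberField K] (q : ℕ) (a : Fin q → K), Function.Injective a →
      ∀ r : ℕ, ∃ 𝒲 : Finset (Submodule K (Fin (r + 1) → K)),
      ∀ (S : Finset (Pl K)) (ε : ℝ), 0 < ε → ∃ C : ℝ,
      ∀ (L : Type) [Field L] [NumberField L] [Algebra K L] (x : L),
        IntermediateField.adjoin K {x} = ⊤ → finrank K L = r →
        (∀ i, x ≠ algebraMap K L (a i)) → ∀ κ : ℕ,
        (∀ W ∈ 𝒲, vec K r x ∈ W → r + 1 ≤ finrank K W + κ) →
          ∑ v ∈ S, ∑ i, max (prox v (a i) x) (clus v (a i) x) ≤
            (r + 1 + κ + ε) * logHeight ![1, x] + C) ∧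
    (∀ r : ℕ, 0 < r → ∃ a : Fin (2 * r) → ℚ, Function.Injective a ∧
      ∃ S0 : Finset (Pl ℚ), ∀ S, S0 ⊆ S → ∀ κ < r,
      ∀ (𝒲 : Finset (Submodule ℚ (Fin (r + 1) → ℚ))) (c C : ℝ), c < r + 1 + κ →
      ∃ (L : Type) (_ : Field L) (_ : NumberField L) (_ : Algebra ℚ L) (x : L),
        IntermediateField.adjoin ℚ {x} = ⊤ ∧ finrank ℚ L = r ∧
        (∀ i, x ≠ algebraMap ℚ L (a i)) ∧
        (∀ W ∈ 𝒲, vec ℚ r x ∈ W → r + 1 ≤ finrank ℚ W + κ) ∧
        c * logHeight ![1, x] + C < ∑ v ∈ S, ∑ i, prox v (a i) x) := by
  refine ⟨?_, ?_⟩
  · intro K _ _ q a ha r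
    obtain ⟨𝒲, h⟩ := Pool.Agent.H430.Gw.gw_max a ha r
    refine ⟨𝒲, fun S ε hε => ?_⟩
    obtain ⟨C, hC⟩ := h S ε hε
    exact ⟨C, fun L _ _ _ x hx hr hxa κ hκ => hC L x hx hr hxa κ hκ⟩
  · intro r hr
    exact Pool.Agent.H430.Gw.sharp r hr

end Pool.Agent.Results.MP_651af7_nt.WirsingByCodimension
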